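import Pool.Agent.Q91.LB.Op
import Pool.Agent.Q91.LB.Fol

set_option autoImplicit false
set_option linter.unusedSectionVars false

/-! # L²-Betti numbers and co-amenable coverings

`M` is a finite connected complex (for instance a compact aspherical manifold) with fundamental
group `G`; a piece `C_{k+1} → C_k → C_{k-1}` of the cellular chain complex of the universal cover is
given by two matrices `B`, `A` over the group ring.  `K` is a subgroup of `G` and `M_K` is the
covering of `M` with group `K`, in general not compact; its pieces are given by the finite sets `F`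
of cosets.
-/

open scoped InnerProductSpace ENNReal

universe u

namespace Pool.Agent.Results.MP_4f4d9f_gt.CoamenableCoverings

open Pool.Agent.Q91.LB

/-- Square-summable chains: square-summable functions on `G × {0, ..., n-1}`. -/
noncomputable abbrev Chain (G : Type u) (n : ℕ) := lp (fun _ : G × Fin n => ℂ) 2

open Classical in
/-- The basis vector at `x`. -/
noncomputable def delta {G : Type u} {n : ℕ} (x : G × Fin n) : Chain G n := lp.single 2 x 1

/-- The value of the matrix `A` over the group algebra at a function. -/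
def app {G : Type u} [Group G] {m n : ℕ} (A : Fin m → Fin n → (G →₀ ℂ)) (f : G × Fin n → ℂ) :
    G × Fin m → ℂ :=
  fun x => ∑ j, ∑ s ∈ (A x.2 j).support, A x.2 j s * f (s⁻¹ * x.1, j)

/-- The values of a chain. -/
def vals {G : Type u} {n : ℕ} (f : Chain G n) : G × Fin n → ℂ := fun x => f x

/-- The function `f` is zero outside `D`. -/
def SuppIn {G : Type u} {n : ℕ} (D : Set G) (f : G × Fin n → ℂ) : Prop :=
  ∀ x, x.1 ∉ D → f x = 0

/-- The inner product of two functions. -/
noncomputable def dot {G : Type u} {n : ℕ} (f g : G × Fin n → ℂ) : ℂ :=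
  ∑' x, g x * (starRingEnd ℂ) (f x)

/-- The square-summable cycles: `A f = 0`. -/
def cycles {G : Type u} [Group G] {m n : ℕ} (A : Fin m → Fin n → (G →₀ ℂ)) : Set (Chain G n) :=
  {f | app A (vals f) = 0}

/-- The boundaries `B h` of the square-summable chains `h` which are zero outside `D`. -/
def boundaries {G : Type u} [Group G] {n p : ℕ} (B : Fin n → Fin p → (G →₀ ℂ)) (D : Set G) :
    Set (Chain G n) :=
  {b | ∃ h : Chain G p, SuppIn D (vals h) ∧ vals b = app B (vals h)}

/-- The square-summable harmonic chains: the cycles orthogonal to all boundaries. -/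
def harmonic {G : Type u} [Group G] {m n p : ℕ} (A : Fin m → Fin n → (G →₀ ℂ))
    (B : Fin n → Fin p → (G →₀ ℂ)) : Set (Chain G n) :=
  {f | f ∈ cycles A ∧ ∀ b ∈ boundaries B Set.univ, dot (vals b) (vals f) = 0}

/-- The `L²`-Betti number `b_k(M)`: the von Neumann dimension over `G` of the space of the harmonic
chains, that is the sum of the squared lengths of the projections of the `n` basis vectors at the
identity of `G`. -/
noncomputable def betti {G : Type u} [Group G] {m n p : ℕ} (A : Fin m → Fin n → (G →₀ ℂ))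
    (B : Fin n → Fin p → (G →₀ ℂ)) : ℝ :=
  ∑ i, (1 - Metric.infDist (delta ((1 : G), i)) (harmonic A B) ^ 2)

/-- The union of the cosets in `F`. -/
def cosetsIn {G : Type u} [Group G] (K : Subgroup G) (F : Finset (G ⧸ K)) : Set G :=
  {g | (g : G ⧸ K) ∈ F}

/-- The cycles supported on the cosets in `F`. -/
def cyclesOn {G : Type u} [Group G] (K : Subgroup G) {m n : ℕ} (A : Fin m → Fin n → (G →₀ ℂ))
    (F : Finset (G ⧸ K)) : Set (Chain G n) :=
  {f | f ∈ cycles A ∧ SuppIn (cosetsIn K F) (vals f)}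

/-- The cycles supported on `F` which are limits of boundaries of chains supported on `F'`. -/
def nullOn {G : Type u} [Group G] (K : Subgroup G) {m n p : ℕ} (A : Fin m → Fin n → (G →₀ ℂ))
    (B : Fin n → Fin p → (G →₀ ℂ)) (F F' : Finset (G ⧸ K)) : Set (Chain G n) :=
  {f | f ∈ cyclesOn K A F ∧ f ∈ closure (boundaries B (cosetsIn K F'))}

/-- The von Neumann dimension over `K` of a space `V` of chains supported on the cosets in `F`
(`K` acts from the right; the vectors `delta (r x, i)` are a basis over `K` of the space of all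
chains supported on `F`). -/
noncomputable def dimK {G : Type u} [Group G] (K : Subgroup G) (r : G ⧸ K → G) {n : ℕ}
    (F : Finset (G ⧸ K)) (V : Set (Chain G n)) : ℝ :=
  ∑ x ∈ F, ∑ i, (1 - Metric.infDist (delta (r x, i)) V ^ 2)

/-- The von Neumann dimension over `K` of the image of the reduced `ℓ²`-homology of the piece `F` of
the covering `M_K` in that of the piece `F'`. -/
noncomputable def imageDim {G : Type u} [Group G] (K : Subgroup G) (r : G ⧸ K → G) {m n p : ℕ}
    (A : Fin m → Fin n → (G →₀ ℂ)) (B : Fin n → Fin p → (G →₀ ℂ)) (F F' : Finset (G ⧸ K)) : ℝ :=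
  dimK K r F (cyclesOn K A F) - dimK K r F (nullOn K A B F F')

/-- The `L²`-Betti number `b_k(M_K)` (over `K`) of the covering `M_K`, which may be infinite: the
supremum over the pieces `F` of the infimum over the pieces `F'` of `imageDim` (Lück's dimension of
the direct limit of the homology of the pieces). -/
noncomputable def bettiCover {G : Type u} [Group G] (K : Subgroup G) (r : G ⧸ K → G) {m n p : ℕ}
    (A : Fin m → Fin n → (G →₀ ℂ)) (B : Fin n → Fin p → (G →₀ ℂ)) : ℝ≥0∞ :=
  ⨆ F : Finset (G ⧸ K), ⨅ F' : Finset (G ⧸ K), ENNReal.ofReal (imageDim K r A B F F')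

/-- The union of the supports of the entries of the matrix `A`. -/
def supp {G : Type u} [Group G] {m n : ℕ} (A : Fin m → Fin n → (G →₀ ℂ)) : Set G :=
  {s | ∃ i j, A i j s ≠ 0}

/-- The action of `G` on the set of the cosets `gK`. -/
def move {G : Type u} [Group G] {K : Subgroup G} (s : G) (x : G ⧸ K) : G ⧸ K := s • x

/-- The outer boundary of `F` with respect to the matrix `A`: the cosets `y` such that `s⁻¹ y` is in
`F` for some but not for all `s` in the union of the supports of the entries. -/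
def outer {G : Type u} [Group G] (K : Subgroup G) {m n : ℕ} (A : Fin m → Fin n → (G →₀ ℂ))
    (F : Finset (G ⧸ K)) : Set (G ⧸ K) :=
  {y | (∃ s ∈ supp A, move s⁻¹ y ∈ F) ∧ ∃ s ∈ supp A, move s⁻¹ y ∉ F}

/-- The inner boundary of `F` with respect to the matrix `B`: the cosets `x` in `F` such that `s x`
is not in `F` for some `s` in the union of the supports of the entries. -/
def inner' {G : Type u} [Group G] (K : Subgroup G) {n p : ℕ} (B : Fin n → Fin p → (G →₀ ℂ))
    (F : Finset (G ⧸ K)) : Set (G ⧸ K) :=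
  {x | x ∈ F ∧ ∃ s ∈ supp B, move s x ∉ F}

/-- `F` is a nonempty finite set of cosets and at most `δ |F|` elements of `F` are moved out of `F`
by an element of `S`. -/
def Folner {G : Type u} [Group G] (K : Subgroup G) (S : Finset G) (δ : ℝ) (F : Finset (G ⧸ K)) :
    Prop :=
  F.Nonempty ∧ (({x | x ∈ F ∧ ∃ s ∈ S, move s x ∉ F} : Set (G ⧸ K)).ncard : ℝ) ≤ δ * F.card

/-- The subgroup `K` is co-amenable (Følner's condition for the action of `G` on `G / K`). -/
def CoAmenable {G : Type u} [Group G] (K : Subgroup G) : Prop :=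
  ∀ (S : Finset G) (δ : ℝ), 0 < δ → ∃ F : Finset (G ⧸ K), Folner K S δ F

/-- The two bounds for `imageDim` for all finite sets of cosets. -/
def Bounds {G : Type u} [Group G] (K : Subgroup G) (r : G ⧸ K → G) {m n p : ℕ}
    (A : Fin m → Fin n → (G →₀ ℂ)) (B : Fin n → Fin p → (G →₀ ℂ)) : Prop :=
  ∀ F F' : Finset (G ⧸ K),
    F.card * betti A B - m * (outer K A F).ncard ≤ imageDim K r A B F F' ∧
      (F ⊆ F' → imageDim K r A B F F' ≤ F.card * betti A B + n * (inner' K B F).ncard)

/-- `imageDim F F' / |F|` converges to `betti` along the Følner sets `F`, uniformly in `F'`. -/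
def Converges {G : Type u} [Group G] (K : Subgroup G) (r : G ⧸ K → G) {m n p : ℕ}
    (A : Fin m → Fin n → (G →₀ ℂ)) (B : Fin n → Fin p → (G →₀ ℂ)) : Prop :=
  ∀ ε : ℝ, 0 < ε → ∃ (S : Finset G) (δ : ℝ), 0 < δ ∧ ∀ F, Folner K S δ F → ∀ F', F ⊆ F' →
    |imageDim K r A B F F' / F.card - betti A B| ≤ ε

section
variable {G : Type u} [Group G] {m n p : ℕ}

theorem delta_eq (x : G × Fin n) : delta x = W649.ZL.dl x := by
  classical
  ext y
  unfold delta
  by_cases hy : y = x
  · subst hy
    rw [W649.ZL.dl_apply_self]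
    exact lp.single_apply_self (E := fun _ : G × Fin n => ℂ) 2 y 1
  · rw [W649.ZL.dl_apply_ne _ _ hy]
    exact lp.single_apply_ne (E := fun _ : G × Fin n => ℂ) 2 x 1 hy

theorem app_eq (A : Fin m → Fin n → (G →₀ ℂ)) (f : Chain G n) (x : G × Fin m) :
    app A (vals f) x = opM A f x := (opM_apply A f x).symm

theorem dot_eq (f g : Chain G n) : dot (vals f) (vals g) = ⟪f, g⟫_ℂ := by
  rw [lp.inner_eq_tsum]
  rfl

theorem cycles_eq (A : Fin m → Fin n → (G →₀ ℂ)) :
    cycles A = (LinearMap.ker (opM A : W649.ZL.EE G (Fin n) →ₗ[ℂ] W649.ZL.EE G (Fin m)) :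
      Set (W649.ZL.EE G (Fin n))) := by
  ext f
  constructor
  · intro h
    change opM A f = 0
    ext x
    rw [← app_eq]
    exact congrFun h x
  · intro h
    have h' : opM A f = 0 := h
    change app A (vals f) = 0
    funext x
    rw [app_eq, h']
    rfl

theorem boundaries_eq (B : Fin n → Fin p → (G →₀ ℂ)) (D : Set G) :
    boundaries B D = {b | ∃ h : Chain G p, (∀ x : G × Fin p, x.1 ∉ D → h x = 0) ∧ b = opM B h} := by
  ext b
  constructor
  · rintro ⟨h, h1, h2⟩
    refine ⟨h, h1, ?_⟩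
    ext x
    have h3 := congrFun h2 x
    rw [app_eq] at h3
    exact h3
  · rintro ⟨h, h1, rfl⟩
    exact ⟨h, h1, funext fun x => (app_eq B h x).symm⟩

theorem harmonic_eq (A : Fin m → Fin n → (G →₀ ℂ)) (B : Fin n → Fin p → (G →₀ ℂ)) :
    harmonic A B = (harm A B : Set (W649.ZL.EE G (Fin n))) := by
  ext f
  unfold harmonic
  rw [cycles_eq, boundaries_eq]
  constructor
  · rintro ⟨h1, h2⟩
    refine ⟨h1, ?_⟩
    rw [SetLike.mem_coe, Submodule.mem_orthogonal]
    rintro _ ⟨h, rfl⟩
    have h3 := h2 (opM B h) ⟨h, fun x hx => absurd (Set.mem_univ _) hx, rfl⟩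
    rw [dot_eq] at h3
    exact h3
  · rintro ⟨h1, h2⟩
    refine ⟨h1, ?_⟩
    rintro _ ⟨h, _, rfl⟩
    rw [SetLike.mem_coe, Submodule.mem_orthogonal] at h2
    rw [dot_eq]
    exact h2 _ ⟨h, rfl⟩

theorem betti_eq (A : Fin m → Fin n → (G →₀ ℂ)) (B : Fin n → Fin p → (G →₀ ℂ)) :
    betti A B = W649.ZL.vd (harm A B) := by
  rw [W649.ZL.vd_eq_infDist _ (harm_closed A B)]
  unfold betti
  rw [harmonic_eq]
  simp only [delta_eq]

variable (K : Subgroup G)

/-- the submodule of cycles supported on `F` -/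
noncomputable def ZF (A : Fin m → Fin n → (G →₀ ℂ)) (F : Finset (G ⧸ K)) :
    Submodule ℂ (W649.ZL.EE G (Fin n)) where
  carrier := cyclesOn K A F
  add_mem' := by
    rintro f g ⟨hf, hf'⟩ ⟨hg, hg'⟩
    rw [cycles_eq] at hf hg
    refine ⟨?_, fun x hx => ?_⟩
    · rw [cycles_eq]; exact Submodule.add_mem _ hf hg
    · have h1 : f x = 0 := hf' x hx
      have h2 : g x = 0 := hg' x hx
      change f x + g x = 0
      rw [h1, h2, add_zero]
  zero_mem' := by
    refine ⟨?_, fun x _ => rfl⟩
    rw [cycles_eq]; exact Submodule.zero_mem _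
  smul_mem' := by
    rintro c f ⟨hf, hf'⟩
    rw [cycles_eq] at hf
    refine ⟨?_, fun x hx => ?_⟩
    · rw [cycles_eq]; exact Submodule.smul_mem _ c hf
    · have h1 : f x = 0 := hf' x hx
      change c * f x = 0
      rw [h1, mul_zero]

theorem ZF_closed (A : Fin m → Fin n → (G →₀ ℂ)) (F : Finset (G ⧸ K)) :
    IsClosed (ZF K A F : Set (W649.ZL.EE G (Fin n))) := by
  change IsClosed (cyclesOn K A F)
  have h1 : cyclesOn K A F = (LinearMap.ker (opM A : W649.ZL.EE G (Fin n) →ₗ[ℂ]
      W649.ZL.EE G (Fin m)) : Set (W649.ZL.EE G (Fin n))) ∩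
      ⋂ (x : G × Fin n) (_ : x.1 ∉ cosetsIn K F), {f : W649.ZL.EE G (Fin n) | f x = 0} := by
    ext f
    unfold cyclesOn
    rw [cycles_eq]
    simp only [Set.mem_setOf_eq, Set.mem_inter_iff, Set.mem_iInter]
    rfl
  rw [h1]
  refine (opM A).isClosed_ker.inter ?_
  exact isClosed_iInter fun x => isClosed_iInter fun _ => W649.ZL.apply_isClosed x

/-- the submodule of boundaries of chains supported on `F'` -/
noncomputable def BF (B : Fin n → Fin p → (G →₀ ℂ)) (F : Finset (G ⧸ K)) :
    Submodule ℂ (W649.ZL.EE G (Fin n)) where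
  carrier := boundaries B (cosetsIn K F)
  add_mem' := by
    intro f g hf hg
    rw [boundaries_eq] at hf hg ⊢
    obtain ⟨h, h1, rfl⟩ := hf
    obtain ⟨h', h1', rfl⟩ := hg
    refine ⟨h + h', fun x hx => ?_, by rw [map_add]⟩
    change h x + h' x = 0
    rw [h1 x hx, h1' x hx, add_zero]
  zero_mem' := by
    rw [boundaries_eq]
    exact ⟨0, fun x _ => rfl, by rw [map_zero]⟩
  smul_mem' := by
    intro c f hf
    rw [boundaries_eq] at hf ⊢
    obtain ⟨h, h1, rfl⟩ := hf
    refine ⟨c • h, fun x hx => ?_, by rw [map_smul]⟩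
    change c * h x = 0
    rw [h1 x hx, mul_zero]

/-- the submodule of null cycles -/
noncomputable def NF (A : Fin m → Fin n → (G →₀ ℂ)) (B : Fin n → Fin p → (G →₀ ℂ))
    (F F' : Finset (G ⧸ K)) : Submodule ℂ (W649.ZL.EE G (Fin n)) :=
  ZF K A F ⊓ (BF K B F').topologicalClosure

theorem NF_coe (A : Fin m → Fin n → (G →₀ ℂ)) (B : Fin n → Fin p → (G →₀ ℂ))
    (F F' : Finset (G ⧸ K)) :
    (NF K A B F F' : Set (W649.ZL.EE G (Fin n))) = nullOn K A B F F' := rfl

theorem NF_closed (A : Fin m → Fin n → (G →₀ ℂ)) (B : Fin n → Fin p → (G →₀ ℂ))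
    (F F' : Finset (G ⧸ K)) : IsClosed (NF K A B F F' : Set (W649.ZL.EE G (Fin n))) :=
  (ZF_closed K A F).inter (Submodule.isClosed_topologicalClosure _)

variable [DecidableEq (G ⧸ K)]

theorem dimK_cycles (r : G ⧸ K → G) (hr : ∀ x, (r x : G ⧸ K) = x) (A : Fin m → Fin n → (G →₀ ℂ))
    (F : Finset (G ⧸ K)) : dimK K r F (cyclesOn K A F)
      = W649.ZL.vd (pb K F r hr (LinearMap.ker (opM A : W649.ZL.EE G (Fin n) →ₗ[ℂ]
        W649.ZL.EE G (Fin m)))) := by
  have h1 : pb K F r hr (LinearMap.ker (opM A : W649.ZL.EE G (Fin n) →ₗ[ℂ]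
        W649.ZL.EE G (Fin m))) = pb K F r hr (ZF K A F) := by
    ext v
    rw [mem_pb, mem_pb]
    constructor
    · intro h
      refine ⟨?_, fun x hx => exF_zero K F r hr v x hx⟩
      rw [cycles_eq]; exact h
    · rintro ⟨h, _⟩
      rw [cycles_eq] at h; exact h
  rw [h1, vd_pb K F r hr _ (ZF_closed K A F) (fun f hf => hf.2)]
  unfold dimK
  simp only [delta_eq]
  rfl

theorem dimK_null (r : G ⧸ K → G) (hr : ∀ x, (r x : G ⧸ K) = x) (A : Fin m → Fin n → (G →₀ ℂ))
    (B : Fin n → Fin p → (G →₀ ℂ)) (F F' : Finset (G ⧸ K)) : dimK K r F (nullOn K A B F F')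
      = W649.ZL.vd (pb K F r hr (NF K A B F F')) := by
  rw [vd_pb K F r hr _ (NF_closed K A B F F') (fun f hf => hf.1.2)]
  unfold dimK
  simp only [delta_eq]
  rfl

open Classical in
/-- the union of the supports -/
noncomputable def suppM (A : Fin m → Fin n → (G →₀ ℂ)) : Finset G :=
  Finset.univ.biUnion fun i => Finset.univ.biUnion fun j => (A i j).support

theorem mem_suppM (A : Fin m → Fin n → (G →₀ ℂ)) (s : G) :
    s ∈ suppM A ↔ s ∈ supp A := by
  unfold suppM supp
  simp

theorem sub_suppM (A : Fin m → Fin n → (G →₀ ℂ)) (i : Fin m) (j : Fin n) :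
    (A i j).support ⊆ suppM A :=
  fun s hs => (mem_suppM A s).2 ⟨i, j, Finsupp.mem_support_iff.1 hs⟩

theorem outer_eq (A : Fin m → Fin n → (G →₀ ℂ)) (F : Finset (G ⧸ K)) :
    (outer K A F).ncard = (bd K F (suppM A)).card := by
  have h1 : outer K A F = Subtype.val '' (bd K F (suppM A) : Set (imF K F (suppM A))) := by
    ext y
    constructor
    · rintro ⟨⟨s, hs, hsF⟩, s', hs', hsF'⟩
      have h3 := mem_imF K F ((mem_suppM A s).2 hs) hsF
      unfold move at h3
      rw [smul_inv_smul] at h3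
      exact ⟨⟨y, h3⟩, Finset.mem_coe.2 (Finset.mem_filter.2 ⟨Finset.mem_univ _, s',
        (mem_suppM A s').2 hs', hsF'⟩), rfl⟩
    · rintro ⟨⟨y, hy⟩, h2, rfl⟩
      obtain ⟨s', hs', hsF'⟩ := (Finset.mem_filter.1 (Finset.mem_coe.1 h2)).2
      obtain ⟨⟨s, x⟩, h3, h4⟩ := Finset.mem_image.1 hy
      obtain ⟨hs, hx⟩ := Finset.mem_product.1 h3
      refine ⟨⟨s, (mem_suppM A s).1 hs, ?_⟩, s', (mem_suppM A s').1 hs', hsF'⟩
      change s⁻¹ • y ∈ F
      rw [← h4, inv_smul_smul]
      exact hx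
  rw [h1, Set.ncard_image_of_injective _ Subtype.val_injective, Set.ncard_coe_finset]

theorem inner_eq (B : Fin n → Fin p → (G →₀ ℂ)) (F : Finset (G ⧸ K)) :
    ((inner' K B F).ncard : ℝ) = F.card - (inn K F (suppM B)).card := by
  have h1 : inner' K B F = ((F \ inn K F (suppM B) : Finset (G ⧸ K)) : Set (G ⧸ K)) := by
    ext x
    rw [Finset.mem_coe, Finset.mem_sdiff]
    unfold inn
    rw [Finset.mem_filter]
    constructor
    · rintro ⟨hx, s, hs, hsx⟩
      exact ⟨hx, fun h => hsx (h.2 s ((mem_suppM B s).2 hs))⟩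
    · rintro ⟨hx, h⟩
      have h2 : ¬ ∀ s ∈ suppM B, s • x ∈ F := fun h3 => h ⟨hx, h3⟩
      push Not at h2
      obtain ⟨s, hs, hsx⟩ := h2
      exact ⟨hx, s, (mem_suppM B s).1 hs, hsx⟩
  have hsub : inn K F (suppM B) ⊆ F := Finset.filter_subset _ _
  rw [h1, Set.ncard_coe_finset, Finset.card_sdiff_of_subset hsub,
    Nat.cast_sub (Finset.card_le_card hsub)]

theorem lower_bound (r : G ⧸ K → G) (hr : ∀ x, (r x : G ⧸ K) = x) (A : Fin m → Fin n → (G →₀ ℂ))
    (B : Fin n → Fin p → (G →₀ ℂ)) (F F' : Finset (G ⧸ K)) :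
    F.card * betti A B - m * (outer K A F).ncard ≤ imageDim K r A B F F' := by
  unfold imageDim
  rw [dimK_cycles K r hr, dimK_null K r hr, betti_eq, outer_eq]
  have h := lower K F r hr A (suppM A) (sub_suppM A) (harm A B) (NF K A B F F')
    (harm_closed A B) (harm_inv A B) (fun f hf => hf.1) (NF_closed K A B F F') ?_ ?_
  · rw [Fintype.card_fin] at h
    exact h
  · rintro f ⟨⟨h1, _⟩, _⟩
    rw [cycles_eq] at h1
    exact h1
  · rintro f ⟨_, hf⟩ h hh
    have hcl : IsClosed {g : W649.ZL.EE G (Fin n) | ⟪g, h⟫_ℂ = 0} :=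
      isClosed_eq (continuous_id.inner continuous_const) continuous_const
    have hsub : (BF K B F' : Set (W649.ZL.EE G (Fin n))) ⊆ {g | ⟪g, h⟫_ℂ = 0} := by
      intro g hg
      change g ∈ boundaries B (cosetsIn K F') at hg
      rw [boundaries_eq] at hg
      obtain ⟨c, _, rfl⟩ := hg
      have h2 := hh.2
      rw [SetLike.mem_coe, Submodule.mem_orthogonal] at h2
      exact h2 _ ⟨c, rfl⟩
    exact closure_minimal hsub hcl hf

theorem upper_bound (r : G ⧸ K → G) (hr : ∀ x, (r x : G ⧸ K) = x) (A : Fin m → Fin n → (G →₀ ℂ))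
    (B : Fin n → Fin p → (G →₀ ℂ)) (hAB : ∀ h : G × Fin p → ℂ, app A (app B h) = 0)
    (F F' : Finset (G ⧸ K)) (hF : F ⊆ F') :
    imageDim K r A B F F' ≤ F.card * betti A B + n * (inner' K B F).ncard := by
  unfold imageDim
  rw [dimK_cycles K r hr, dimK_null K r hr, betti_eq, inner_eq]
  have hAB' : ∀ f : W649.ZL.EE G (Fin p), opM A (opM B f) = 0 := by
    intro f
    ext x
    have h1 : vals (opM B f) = app B (vals f) := by
      funext y
      exact (app_eq B f y).symm
    rw [← app_eq, h1, hAB]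
    rfl
  have h := upper K F r hr A B hAB' (suppM B) (sub_suppM B) (NF K A B F F') ?_
  · rw [Fintype.card_fin] at h
    exact h
  · intro f hf
    refine ⟨⟨?_, ?_⟩, ?_⟩
    · rw [cycles_eq]
      exact hAB' f
    · intro x hx
      exact opM_zero K _ B (suppM B) (sub_suppM B) f hf x (fun h => hx (imF_inn K F _ h))
    · apply subset_closure
      change opM B f ∈ boundaries B (cosetsIn K F')
      rw [boundaries_eq]
      exact ⟨f, fun x hx => hf x (fun h => hx (hF (inn_sub K F _ h))), rfl⟩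

omit [DecidableEq (G ⧸ K)] in
theorem outer_small (A : Fin m → Fin n → (G →₀ ℂ)) : ∃ S : Finset G, ∀ (δ : ℝ)
    (F : Finset (G ⧸ K)), Folner K S δ F →
      ((outer K A F).ncard : ℝ) ≤ (suppM A).card * (δ * F.card) := by
  classical
  refine ⟨(suppM A ×ˢ suppM A).image fun p => p.1⁻¹ * p.2, fun δ F hF => ?_⟩
  set S1 : Finset G := (suppM A ×ˢ suppM A).image fun p => p.1⁻¹ * p.2 with hS1
  set Q : Finset (G ⧸ K) := F.filter fun x => ∃ s ∈ S1, s • x ∉ F with hQ
  have hQn : ({x | x ∈ F ∧ ∃ s ∈ S1, s • x ∉ F} : Set (G ⧸ K)).ncard = Q.card := by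
    rw [← Set.ncard_coe_finset]
    congr 1
    ext x
    rw [Finset.mem_coe, hQ, Finset.mem_filter]
    rfl
  have hb : (({x | x ∈ F ∧ ∃ s ∈ S1, s • x ∉ F} : Set (G ⧸ K)).ncard : ℝ) ≤ δ * F.card := hF.2
  rw [hQn] at hb
  have h1 : outer K A F ⊆ ((suppM A ×ˢ Q).image fun p => p.1 • p.2 : Finset (G ⧸ K)) := by
    rintro y ⟨⟨s, hs, hsF⟩, s', hs', hsF'⟩
    rw [Finset.mem_coe, Finset.mem_image]
    refine ⟨(s, s⁻¹ • y), Finset.mem_product.2 ⟨(mem_suppM A s).2 hs, Finset.mem_filter.2 ⟨hsF,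
      s'⁻¹ * s, Finset.mem_image.2 ⟨(s', s), Finset.mem_product.2 ⟨(mem_suppM A s').2 hs',
        (mem_suppM A s).2 hs⟩, rfl⟩, ?_⟩⟩, smul_inv_smul s y⟩
    rw [mul_smul, smul_inv_smul]
    exact hsF'
  have h2 : (outer K A F).ncard ≤ (suppM A).card * Q.card := by
    refine (Set.ncard_le_ncard h1 (Finset.finite_toSet _)).trans ?_
    rw [Set.ncard_coe_finset]
    refine Finset.card_image_le.trans ?_
    rw [Finset.card_product]
  have h3 : ((outer K A F).ncard : ℝ) ≤ (suppM A).card * Q.card := by exact_mod_cast h2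
  calc ((outer K A F).ncard : ℝ) ≤ (suppM A).card * Q.card := h3
    _ ≤ _ := by gcongr

omit [DecidableEq (G ⧸ K)] in
theorem inner_small (B : Fin n → Fin p → (G →₀ ℂ)) (δ : ℝ) (F : Finset (G ⧸ K))
    (h : Folner K (suppM B) δ F) : ((inner' K B F).ncard : ℝ) ≤ δ * F.card := by
  have h1 : inner' K B F = {x | x ∈ F ∧ ∃ s ∈ suppM B, s • x ∉ F} := by
    ext x
    constructor
    · rintro ⟨hx, s, hs, hsx⟩
      exact ⟨hx, s, (mem_suppM B s).2 hs, hsx⟩
    · rintro ⟨hx, s, hs, hsx⟩
      exact ⟨hx, s, (mem_suppM B s).1 hs, hsx⟩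
  rw [h1]
  exact h.2

omit [DecidableEq (G ⧸ K)] in
theorem limit (r : G ⧸ K → G) (hr : ∀ x, (r x : G ⧸ K) = x) (A : Fin m → Fin n → (G →₀ ℂ))
    (B : Fin n → Fin p → (G →₀ ℂ)) (hAB : ∀ h : G × Fin p → ℂ, app A (app B h) = 0)
    (ε : ℝ) (hε : 0 < ε) : ∃ (S : Finset G) (δ : ℝ), 0 < δ ∧ ∀ F, Folner K S δ F →
      ∀ F', F ⊆ F' → |imageDim K r A B F F' / F.card - betti A B| ≤ ε := by
  classical
  obtain ⟨S1, hS1⟩ := outer_small K A
  set c : ℝ := m * (suppM A).card + n + 1 with hc
  have hc0 : 0 < c := by positivity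
  refine ⟨S1 ∪ suppM B, ε / c, by positivity, fun F hF F' hFF' => ?_⟩
  have hF1 : Folner K S1 (ε / c) F := Fol.mono K hF Finset.subset_union_left le_rfl
  have hF2 : Folner K (suppM B) (ε / c) F := Fol.mono K hF Finset.subset_union_right le_rfl
  have h1 := hS1 _ F hF1
  have h2 := inner_small K B _ F hF2
  have h3 := lower_bound K r hr A B F F'
  have h4 := upper_bound K r hr A B hAB F F' hFF'
  have hFc : (0 : ℝ) < F.card := by exact_mod_cast hF.1.card_pos
  have h5 : (m : ℝ) * (outer K A F).ncard ≤ ε * F.card := by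
    calc (m : ℝ) * (outer K A F).ncard ≤ m * ((suppM A).card * (ε / c * F.card)) := by gcongr
      _ = (m * (suppM A).card) / c * (ε * F.card) := by ring
      _ ≤ 1 * (ε * F.card) := by
          gcongr
          rw [div_le_one hc0, hc]
          have : (0 : ℝ) ≤ n := by positivity
          linarith
      _ = _ := one_mul _
  have h6 : (n : ℝ) * (inner' K B F).ncard ≤ ε * F.card := by
    calc (n : ℝ) * (inner' K B F).ncard ≤ n * (ε / c * F.card) := by gcongr
      _ = n / c * (ε * F.card) := by ring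
      _ ≤ 1 * (ε * F.card) := by
          gcongr
          rw [div_le_one hc0, hc]
          have : (0 : ℝ) ≤ m * (suppM A).card := by positivity
          linarith
      _ = _ := one_mul _
  rw [abs_le]
  constructor
  · rw [neg_le_sub_iff_le_add, ← sub_le_iff_le_add, le_div_iff₀ hFc]
    linarith
  · rw [sub_le_iff_le_add, div_le_iff₀ hFc]
    linarith

omit [DecidableEq (G ⧸ K)] in
theorem betti_nonneg (A : Fin m → Fin n → (G →₀ ℂ)) (B : Fin n → Fin p → (G →₀ ℂ)) :
    0 ≤ betti A B := by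
  rw [betti_eq]
  exact W649.ZL.vd_nonneg _

omit [DecidableEq (G ⧸ K)] in
theorem cover_ge (r : G ⧸ K → G) (hr : ∀ x, (r x : G ⧸ K) = x) (A : Fin m → Fin n → (G →₀ ℂ))
    (B : Fin n → Fin p → (G →₀ ℂ)) (F : Finset (G ⧸ K)) :
    ENNReal.ofReal (F.card * betti A B - m * (outer K A F).ncard) ≤ bettiCover K r A B := by
  classical
  unfold bettiCover
  refine le_trans ?_ (le_iSup _ F)
  refine le_iInf fun F' => ?_
  exact ENNReal.ofReal_le_ofReal (lower_bound K r hr A B F F')

omit [DecidableEq (G ⧸ K)] in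
theorem vanish (r : G ⧸ K → G) (hr : ∀ x, (r x : G ⧸ K) = x) (A : Fin m → Fin n → (G →₀ ℂ))
    (B : Fin n → Fin p → (G →₀ ℂ)) (hfin : bettiCover K r A B ≠ ⊤)
    (hK : ∀ (S : Finset G) (δ : ℝ) (ε : ℝ), 0 < δ → 0 < ε → ∃ F : Finset (G ⧸ K), Folner K S δ F ∧
      (bettiCover K r A B).toReal ≤ ε * F.card) : betti A B = 0 := by
  obtain ⟨S1, hS1⟩ := outer_small K A
  apply le_antisymm _ (betti_nonneg A B)
  apply le_of_forall_pos_le_add
  intro ε hε
  set c : ℝ := m * (suppM A).card + 1 with hc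
  have hc0 : 0 < c := by positivity
  obtain ⟨F, hF, hC⟩ := hK S1 (ε / 2 / c) (ε / 2) (by positivity) (by positivity)
  have h1 := hS1 _ F hF
  have h2 := cover_ge K r hr A B F
  have h3 : F.card * betti A B - m * (outer K A F).ncard ≤ (bettiCover K r A B).toReal := by
    exact (ENNReal.ofReal_le_iff_le_toReal hfin).1 h2
  have hFc : (0 : ℝ) < F.card := by exact_mod_cast hF.1.card_pos
  have h5 : (m : ℝ) * (outer K A F).ncard ≤ ε / 2 * F.card := by
    calc (m : ℝ) * (outer K A F).ncard ≤ m * ((suppM A).card * (ε / 2 / c * F.card)) := by gcongr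
      _ = (m * (suppM A).card) / c * (ε / 2 * F.card) := by ring
      _ ≤ 1 * (ε / 2 * F.card) := by
          gcongr
          rw [div_le_one hc0, hc]
          linarith
      _ = _ := one_mul _
  have h6 : F.card * betti A B ≤ F.card * ε := by linarith
  have h7 := le_of_mul_le_mul_left h6 hFc
  linarith

end

/-- **L²-Betti numbers and co-amenable coverings.** Let `A`, `B` be the matrices over the group
ring of the fundamental group `G` of the boundary maps `C_k → C_{k-1}` and `C_{k+1} → C_k` of the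
universal cover of a finite complex `M`, let `K` be a subgroup of `G` and `M_K` the covering of `M`
with group `K`, and `r` a choice of representatives of the cosets.

(1) For all finite sets `F`, `F'` of cosets, `|F| b_k(M) - m |outer F| ≤ imageDim F F'`, and if `F`
is contained in `F'` then `imageDim F F' ≤ |F| b_k(M) + n |inner F|`.

(2) `imageDim F F' / |F|` converges to `b_k(M)` along the Følner sets `F` in `G / K`, uniformly in
`F' ⊇ F`.

(3) If `K` is co-amenable in `G` and `b_k(M_K) = 0` then `b_k(M) = 0`.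

(4) If `K` is co-amenable in `G`, the index of `K` is infinite, and `b_k(M_K)` is finite, then
`b_k(M) = 0`. -/
theorem result {G : Type u} [Group G] (K : Subgroup G) {m n p : ℕ}
    (A : Fin m → Fin n → (G →₀ ℂ)) (B : Fin n → Fin p → (G →₀ ℂ))
    (hAB : ∀ h : G × Fin p → ℂ, app A (app B h) = 0)
    (r : G ⧸ K → G) (hr : ∀ x, (r x : G ⧸ K) = x) :
    Bounds K r A B ∧ Converges K r A B ∧
    (CoAmenable K → bettiCover K r A B = 0 → betti A B = 0) ∧
    (CoAmenable K → Infinite (G ⧸ K) → bettiCover K r A B ≠ ⊤ → betti A B = 0) := by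
  classical
  refine ⟨fun F F' => ⟨lower_bound K r hr A B F F', fun h => upper_bound K r hr A B hAB F F' h⟩,
    fun ε hε => limit K r hr A B hAB ε hε, fun hK h0 => ?_, fun hK hinf hfin => ?_⟩
  · apply vanish K r hr A B (by rw [h0]; exact ENNReal.zero_ne_top)
    intro S δ ε hδ hε
    obtain ⟨F, hF⟩ := hK S δ hδ
    refine ⟨F, hF, ?_⟩
    rw [h0, ENNReal.toReal_zero]
    positivity
  · apply vanish K r hr A B hfin
    intro S δ ε hδ hε
    obtain ⟨N, hN⟩ := exists_nat_ge ((bettiCover K r A B).toReal / ε)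
    obtain ⟨F, hF, hc⟩ := large K hK hinf S δ hδ N
    refine ⟨F, hF, ?_⟩
    have h1 : (N : ℝ) ≤ F.card := by exact_mod_cast hc
    rw [div_le_iff₀ hε] at hN
    nlinarith

end Pool.Agent.Results.MP_4f4d9f_gt.CoamenableCoverings
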