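import Pool.Agent.Q24.SG.Num5

/-!
# `ℓ²`-Betti numbers above the middle of non-compact reflection manifolds are bounded by the number of bad simplices

Let `G` be a graph on an arbitrary vertex set `V`, finite or infinite, and `L` its flag complex. The Davis complex of
the right-angled Coxeter group `W G` (with infinitely many generators if `V` is infinite) is the directed union of
the `W G`-invariant cocompact subcomplexes `Σ_A` of the cubes `w W_T` with `T ⊆ A`, over the finite sets `A ⊆ V`.

If `L` is a (locally finite) triangulation of a manifold of dimension `2 m + 1`, closed or open, which is the boundary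
of a contractible manifold `X` of dimension `2 m + 2` (for example `L = ℝ^(2 m + 1)`), then the quotient
`M = U(W G, X) / Γ` of the reflection manifold by a torsion-free subgroup `Γ` of finite index of `W G` is an
aspherical manifold of dimension `2 m + 2` without boundary, not compact if `V` is infinite, and
`b_i^(2)(M) = [W G : Γ] b_i^(2)(W G)`.

The vertices are linearly ordered. All vertices outside an initial segment `S` (which spans a member of the class
`ARI (2 m + 2)`) and outside an arbitrary set `Q` have lower links in the class `ARI (2 m + 1)`. Then the normalised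
Betti numbers of `Σ_A / H` in the degrees `i > m + 1` are at most `c_i / 2^i + ε`, where `c_i` is the number of the
cliques in `A` with `i` elements whose largest element is in `Q`. If only finitely many cliques with `i` elements
have their largest element in `Q` this bound does not depend on `A`; as the `i`-th `ℓ²`-Betti number of the union is at
most the lower limit of those of the `Σ_A`, it follows that `b_i^(2)(W G) ≤ c_i / 2^i` is finite.
-/

set_option autoImplicit false

namespace Pool.Agent.Results.MP_4f4d9f_gt.FinitelyManyBadCliques

open Pool.Agent.W907.SG Pool.Agent.Q68.DO Pool.Agent.Q24.SG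

/-- the number of the cliques of `G` in `A` with `i` elements whose largest element is in `Q` -/
noncomputable def badCliques {V : Type} [LinearOrder V] (G : SimpleGraph V) (Q : Set V) (A : Finset V) (i : ℕ) : ℕ :=
  {T : Finset V | G.IsClique (T : Set V) ∧ T ⊆ A ∧ T.card = i ∧ ∃ v ∈ T, v ∈ Q ∧ ∀ u ∈ T, u ≤ v}.ncard

theorem pnum_eq {V : Type} [LinearOrder V] (G : SimpleGraph V) (Q : Set V) (A : Finset V) (i : ℕ) :
    pnum G Q (A : Set V) i = badCliques G Q A i := by
  unfold pnum badCliques
  congr 1

/-- Let `G` be a graph on a linearly ordered vertex set, finite or infinite, `S` an initial segment which spans a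
graph in the class `ARI (2 m + 2)` (for example `S = ∅`), and `Q` a set of vertices such that for every vertex `v`
outside `S` and `Q` the full subgraph on the neighbours `u < v` of `v` is in the class `ARI (2 m + 1)`. Let `A` be a
finite set of vertices and `c_i` the number of the cliques in `A` with `i` elements and largest element in `Q`. For
each `ε > 0` there is a finite set `E` of nontrivial elements of `W G` such that for every subgroup `H` of finite
index of `W G` which contains no conjugate of an element of `E`, and all `i > m + 1`, the `i`-th real Betti number of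
the compact quotient `Σ_A / H` is at most `(c_i / 2^i + ε) [W G : H]`. -/
theorem result : ∀ (m : ℕ) (V : Type) [LinearOrder V] (G : SimpleGraph V),
    ∀ S Q : Set V, (∀ a ∈ S, ∀ b, b ≤ a → b ∈ S) → ARI (2 * m + 2) (G.induce S) →
    (∀ v, v ∉ S → v ∉ Q → ARI (2 * m + 1) (G.induce {u | u < v ∧ G.Adj v u})) →
    ∀ (A : Finset V) (ε : ℝ), 0 < ε → ∃ E : Finset (W G), (1 : W G) ∉ E ∧
      ∀ H : Subgroup (W G), H.FiniteIndex → (∀ g ∈ E, ∀ x : W G, x * g * x⁻¹ ∉ H) → ∀ i : ℕ, m + 1 < i →
        (Module.finrank ℝ (HInvOn G A H i) : ℝ) ≤ ((badCliques G Q A i : ℝ) / 2 ^ i + ε) * H.index := by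
  intro m V _ G S Q h1 h2 h3 A ε hε
  obtain ⟨E, h4, h5⟩ := pay_above (hyp_ARI h1 h2 h3) A ε hε
  refine ⟨E, h4, fun H hfin hE i hi => ?_⟩
  have h6 := h5 H hfin hE i (by omega)
  rw [pnum_eq] at h6
  exact h6

end Pool.Agent.Results.MP_4f4d9f_gt.FinitelyManyBadCliques
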