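import Pool.Agent.Q24.SG.Inf

/-!
# `ℓ²`-Betti numbers above the middle dimension: reflection manifolds with infinitely many bad links

Let `G` be a graph on an arbitrary vertex set `V`, finite or infinite, and `L` its flag complex. The Davis complex of
the right-angled Coxeter group `W G` (with infinitely many generators if `V` is infinite) is the directed union of
the `W G`-invariant cocompact subcomplexes `Σ_A` of the cubes `w W_T` with `T ⊆ A`, over the finite sets `A ⊆ V`.

If `L` is a (locally finite) triangulation of a manifold of dimension `2 m + 1`, closed or open, which is the boundary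
of a contractible manifold `X` of dimension `2 m + 2` (for example `L = ℝ^(2 m + 1)`), then the quotient
`M = U(W G, X) / Γ` of the reflection manifold by a torsion-free subgroup `Γ` of finite index of `W G` is an
aspherical manifold of dimension `2 m + 2` without boundary, not compact if `V` is infinite, and
`b_i^(2)(M) = [W G : Γ] b_i^(2)(W G)`. This number vanishes if all `Σ_A` have no `ℓ²` harmonic `i`-chains.

The class `ARI n` contains the order complexes of the finite graded posets of length `n` which are Gorenstein* over
`F_2` (for example the barycentric subdivisions of the triangulated `(n-1)`-spheres), the finite flag complexes with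
few vertices, and every infinite graph all of whose finite full subgraphs belong to it; it is closed under full
subcomplexes, joins, gluing, and the other operations listed in its definition.

Here the links of the vertices in a set `B`, finite or infinite, are arbitrary; the condition on `B` is that it falls
into pairwise not adjacent finite clusters with few vertices, for example at most `3 m + 5` vertices each.
-/

set_option autoImplicit false

namespace Pool.Agent.Results.MP_4f4d9f_gt.InfinitelyManyBadLinks

open Pool.Agent.W907.SG Pool.Agent.Q68.DO Pool.Agent.Q24.SG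

/-- Let `G` be a graph on a finite or infinite vertex set, and `B` a set of vertices such that the link of every
vertex outside `B` is in the class `ARI (2 m + 1)`. Let the vertices of `B` be coloured such that adjacent vertices
have the same colour, and such that each colour class `C` in `B` is finite and satisfies
`|C| < 3 (m + 2) + |{common neighbours of T in C}|` for all cliques `T ⊆ C` with `m + 2` elements. Let `A` be a finite
set of vertices. (1) The cocompact subcomplex `Σ_A` of the Davis complex of `W G` has no nonzero `ℓ²` harmonic
`i`-chains for `i > m + 1`. (2) For each `ε > 0` there is a finite set `E` of nontrivial elements of `W G` such that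
for every subgroup `H` of finite index of `W G` which contains no conjugate of an element of `E`, and all `i > m + 1`,
the `i`-th real Betti number of the compact quotient `Σ_A / H` is at most `ε [W G : H]`. -/
theorem result : ∀ (m : ℕ) (V ι : Type) [LinearOrder V] (G : SimpleGraph V) (B : Set V) (c : V → ι),
    (∀ a ∈ B, ∀ b ∈ B, G.Adj a b → c a = c b) → (∀ j, {v | v ∈ B ∧ c v = j}.Finite) →
    (∀ j, ∀ T : Finset V, G.IsClique (T : Set V) → (∀ t ∈ T, t ∈ B ∧ c t = j) → T.card = m + 2 →
      {v | v ∈ B ∧ c v = j}.ncard < 3 * (m + 2) + {u | (u ∈ B ∧ c u = j) ∧ ∀ t ∈ T, G.Adj t u}.ncard) →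
    (∀ v, v ∉ B → ARI (2 * m + 1) (G.induce (G.neighborSet v))) → ∀ A : Finset V,
    (∀ i : ℕ, m + 1 < i → ∀ x : W G → Finset V → ℝ, IsHarmOn G A i x → x = 0) ∧
    ∀ ε : ℝ, 0 < ε → ∃ E : Finset (W G), (1 : W G) ∉ E ∧
      ∀ H : Subgroup (W G), H.FiniteIndex → (∀ g ∈ E, ∀ x : W G, x * g * x⁻¹ ∉ H) →
        ∀ i : ℕ, m + 1 < i → (Module.finrank ℝ (HInvOn G A H i) : ℝ) ≤ ε * H.index := by
  intro m V ι _ G B c hadj hfin hcl hl A
  have hG : ARI (2 * m + 2) G :=
    ARI.loc G B (ARI_clusters G B c hadj hfin fun j T hT hTA hr => hcl j T hT (fun _ ht => hTA ht) hr) hl
  refine ⟨fun i hi x hx => ?_, fun ε hε => ?_⟩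
  · letI : Fintype ↥(A : Set V) := Fintype.ofFinite _
    exact harm_zero G A i (above_ARI hG (A : Set V) A.finite_toSet i (by omega)) x hx
  · obtain ⟨E, h1, h2⟩ := growthI hG A ε hε
    exact ⟨E, h1, fun H hfin hE i hi => h2 H hfin hE i (by omega)⟩

end Pool.Agent.Results.MP_4f4d9f_gt.InfinitelyManyBadLinks
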