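import Pool.Agent.Q68.DO.Inf

/-!
# `ℓ²`-Betti numbers above the middle dimension of non-compact reflection manifolds

Let `G` be a graph on an arbitrary vertex set `V`, finite or infinite, and `L` its flag complex. The Davis complex of
the right-angled Coxeter group `W G` (with infinitely many generators if `V` is infinite) is the directed union of
the `W G`-invariant cocompact subcomplexes `Σ_A` of the cubes `w W_T` with `T ⊆ A`, over the finite sets `A ⊆ V`.

If `L` is a (locally finite) triangulation of an `(n-1)`-manifold, closed or open, which is the boundary of a
contractible `n`-manifold `X` (for example of `∂X = ℝ^(n-1)` or of a homology sphere), then the quotient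
`M = U(W G, X) / Γ` of the reflection manifold by a torsion-free subgroup `Γ` of finite index of `W G` is an
aspherical `n`-manifold without boundary. It is not compact and its fundamental group is not finitely generated if
`V` is infinite. Its `ℓ²`-Betti numbers are `b_i^(2)(M) = [W G : Γ] b_i^(2)(W G)`. Since the Davis complex is the
union of the `Σ_A` and the von Neumann dimension is compatible with directed unions, `b_i^(2)(M) = 0` follows from the
vanishing of the reduced `ℓ²`-homology of all the `Σ_A`, i.e. of their `ℓ²` harmonic `i`-chains.

The class `AQI n` of graphs contains the barycentric subdivisions of the triangulated `(n-1)`-spheres, more generally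
the order complexes of the finite graded posets of length `n` which are Gorenstein* over `F_2`; it is closed under
full subcomplexes, it contains every infinite graph all of whose finite full subgraphs belong to it (so for example
the barycentric subdivisions of the combinatorial triangulations of `ℝ^(n-1)`), and it is closed under joins, gluing,
and the other operations listed in its definition; for even `n = 2 m + 2` it contains every, finite or infinite, flag
complex for which the vertices whose links are not in the class `2 m + 1` span a subcomplex of dimension at most `m`.
-/

set_option autoImplicit false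

namespace Pool.Agent.Results.MP_4f4d9f_gt.NonCompactReflectionManifolds

open Pool.Agent.W907.SG Pool.Agent.Q68.DO

/-- Let `G` be a graph in the class `AQI n`, on a finite or infinite vertex set, and let `A` be a finite set of
vertices. (1) The cocompact subcomplex `Σ_A` of the Davis complex of `W G` has no nonzero `ℓ²` harmonic `i`-chains for
`i > n / 2`. (2) For each `ε > 0` there is a finite set `E` of nontrivial elements of `W G` such that for every
subgroup `H` of finite index of `W G` which contains no conjugate of an element of `E`, and all `i > n / 2`, the
`i`-th real Betti number of the compact quotient `Σ_A / H` is at most `ε [W G : H]`. -/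
theorem result : ∀ (n : ℕ) (V : Type) [LinearOrder V] (G : SimpleGraph V), AQI n G → ∀ A : Finset V,
    (∀ i : ℕ, n < 2 * i → ∀ c : W G → Finset V → ℝ, IsHarmOn G A i c → c = 0) ∧
    ∀ ε : ℝ, 0 < ε → ∃ E : Finset (W G), (1 : W G) ∉ E ∧
      ∀ H : Subgroup (W G), H.FiniteIndex → (∀ g ∈ E, ∀ x : W G, x * g * x⁻¹ ∉ H) →
        ∀ i : ℕ, n < 2 * i → (Module.finrank ℝ (HInvOn G A H i) : ℝ) ≤ ε * H.index := by
  intro n V _ G hG A
  refine ⟨fun i hi c hc => ?_, fun ε hε => growthOn_above hG A ε hε⟩
  letI : Fintype ↥(A : Set V) := Fintype.ofFinite _
  exact harm_zero G A i (above_AQI hG (A : Set V) A.finite_toSet i hi) c hc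

end Pool.Agent.Results.MP_4f4d9f_gt.NonCompactReflectionManifolds
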